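import Pool.Agent.W945.Pw.Stm2

set_option autoImplicit false

namespace Pool.Agent.W381.Pw.COUNT

open Pool.Agent.W945.Pw Finset

open Classical in
lemma fiber {n s : ℕ} (C : Circuit n s) (o v : Fin s) :
    ((univ.filter fun p : Fin s × Fin s => C.Wire p.1 p.2 ∧ C.Used o p.2).filter
        fun p => p.2 = v).card + (if ∃ i, C.gate v = Gate.input i then 1 else 0) ≤
      1 + (if ∃ g a b, C.gate v = Gate.op g a b ∧ a ≠ b then 1 else 0) := by
  cases hg : C.gate v with
  | input i =>
    have h0 : ((univ.filter fun p : Fin s × Fin s => C.Wire p.1 p.2 ∧ C.Used o p.2).filter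
        fun p => p.2 = v) = ∅ := by
      rw [Finset.eq_empty_iff_forall_notMem]
      rintro ⟨u, w⟩ h
      rw [Finset.mem_filter, Finset.mem_filter] at h
      obtain ⟨⟨-, ⟨g, a, b, h1, -⟩, -⟩, h2⟩ := h
      simp only at h1 h2
      rw [h2, hg] at h1
      exact absurd h1 (by simp)
    rw [h0, Finset.card_empty]
    split_ifs <;> omega
  | const c =>
    have h0 : ((univ.filter fun p : Fin s × Fin s => C.Wire p.1 p.2 ∧ C.Used o p.2).filter
        fun p => p.2 = v) = ∅ := by
      rw [Finset.eq_empty_iff_forall_notMem]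
      rintro ⟨u, w⟩ h
      rw [Finset.mem_filter, Finset.mem_filter] at h
      obtain ⟨⟨-, ⟨g, a, b, h1, -⟩, -⟩, h2⟩ := h
      simp only at h1 h2
      rw [h2, hg] at h1
      exact absurd h1 (by simp)
    rw [h0, Finset.card_empty]
    split_ifs <;> omega
  | op g a b =>
    have h1 : ¬ ∃ i, (Gate.op g a b : Gate n s) = Gate.input i := by
      rintro ⟨i, h⟩
      exact absurd h (by simp)
    rw [if_neg h1]
    have h2 : ((univ.filter fun p : Fin s × Fin s => C.Wire p.1 p.2 ∧ C.Used o p.2).filter
        fun p => p.2 = v) ⊆ ({a, b} : Finset (Fin s)).image fun u => (u, v) := by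
      rintro ⟨u, w⟩ h
      rw [Finset.mem_filter, Finset.mem_filter] at h
      obtain ⟨⟨-, ⟨g', a', b', h1, h3⟩, -⟩, h2⟩ := h
      simp only at h1 h2 h3
      subst h2
      rw [hg] at h1
      rw [Gate.op.injEq] at h1
      obtain ⟨-, e1, e2⟩ := h1
      rw [Finset.mem_image]
      refine ⟨u, ?_, rfl⟩
      rw [Finset.mem_insert, Finset.mem_singleton, e1, e2]
      exact h3
    have h3 := (Finset.card_le_card h2).trans Finset.card_image_le
    by_cases hab : a = b
    · subst hab
      rw [Finset.pair_eq_singleton, Finset.card_singleton] at h3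
      omega
    · have h4 : ∃ g' a' b', (Gate.op g a b : Gate n s) = Gate.op g' a' b' ∧ a' ≠ b' :=
        ⟨g, a, b, rfl, hab⟩
      rw [if_pos h4]
      have h5 : ({a, b} : Finset (Fin s)).card ≤ 2 := Finset.card_le_two
      omega

open Classical in
theorem main : COUNT.Stm := by
  intro n s C o
  have hne : Nonempty (Fin s) := ⟨o⟩
  have hnext : ∀ u ∈ (univ.filter fun v => C.Used o v).erase o,
      ∃ v, C.Wire u v ∧ C.Used o v := by
    intro u hu
    rw [Finset.mem_erase, Finset.mem_filter] at hu
    rcases Relation.ReflTransGen.cases_head hu.2.2 with h | ⟨c, h1, h2⟩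
    · exact absurd h hu.1
    · exact ⟨c, h1, h2⟩
  choose! π hπ using hnext
  have hTP : (((univ.filter fun v => C.Used o v).erase o).image fun u => (u, π u)) ⊆
      (univ.filter fun p : Fin s × Fin s => C.Wire p.1 p.2 ∧ C.Used o p.2) := by
    intro p hp
    rw [Finset.mem_image] at hp
    obtain ⟨u, hu, rfl⟩ := hp
    rw [Finset.mem_filter]
    exact ⟨Finset.mem_univ _, hπ u hu⟩
  have hTc : (((univ.filter fun v => C.Used o v).erase o).image fun u => (u, π u)).card =
      ((univ.filter fun v => C.Used o v).erase o).card := by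
    refine Finset.card_image_of_injective _ fun a b h => ?_
    exact (Prod.mk.inj h).1
  have hoU : o ∈ univ.filter fun v => C.Used o v := by
    rw [Finset.mem_filter]
    exact ⟨Finset.mem_univ _, Relation.ReflTransGen.refl⟩
  have hUc := Finset.card_erase_add_one hoU
  have hPT := Finset.card_sdiff_add_card_eq_card hTP
  -- the number of wires
  have hPc : (univ.filter fun p : Fin s × Fin s => C.Wire p.1 p.2 ∧ C.Used o p.2).card =
      ∑ v ∈ univ.filter fun v => C.Used o v,
        ((univ.filter fun p : Fin s × Fin s => C.Wire p.1 p.2 ∧ C.Used o p.2).filter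
          fun p => p.2 = v).card := by
    refine Finset.card_eq_sum_card_fiberwise fun p hp => ?_
    have hp' := (Finset.mem_filter.1 (Finset.mem_coe.1 hp)).2.2
    exact Finset.mem_coe.2 (Finset.mem_filter.2 ⟨Finset.mem_univ _, hp'⟩)
  have hsum : (univ.filter fun p : Fin s × Fin s => C.Wire p.1 p.2 ∧ C.Used o p.2).card +
      ((univ.filter fun v => C.Used o v).filter fun v => ∃ i, C.gate v = Gate.input i).card ≤
      (univ.filter fun v => C.Used o v).card +
      ((univ.filter fun v => C.Used o v).filter
        fun v => ∃ g a b, C.gate v = Gate.op g a b ∧ a ≠ b).card := by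
    rw [hPc, Finset.card_filter (fun v => ∃ i, C.gate v = Gate.input i),
      Finset.card_filter (fun v => ∃ g a b, C.gate v = Gate.op g a b ∧ a ≠ b),
      Finset.card_eq_sum_ones (univ.filter fun v => C.Used o v), ← Finset.sum_add_distrib,
      ← Finset.sum_add_distrib]
    exact Finset.sum_le_sum fun v _ => fiber C o v
  have hsize : ((univ.filter fun v => C.Used o v).filter
        fun v => ∃ g a b, C.gate v = Gate.op g a b ∧ a ≠ b).card ≤ C.size := by
    unfold Circuit.size
    refine Finset.card_le_card fun v hv => ?_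
    rw [Finset.mem_filter] at hv ⊢
    exact ⟨Finset.mem_univ _, hv.2⟩
  have hreads : C.reads o ≤
      ((univ.filter fun v => C.Used o v).filter fun v => ∃ i, C.gate v = Gate.input i).card := by
    unfold Circuit.reads
    have hc : ∀ i ∈ (univ.filter fun i => ∃ v, C.gate v = Gate.input i ∧ C.Used o v),
        ∃ v, C.gate v = Gate.input i ∧ C.Used o v := by
      intro i hi
      exact (Finset.mem_filter.1 hi).2
    choose! w hw using hc
    refine Finset.card_le_card_of_injOn w (fun i hi => ?_) (fun i hi j hj e => ?_)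
    · have h := hw i (Finset.mem_coe.1 hi)
      refine Finset.mem_coe.2 (Finset.mem_filter.2 ⟨Finset.mem_filter.2 ⟨Finset.mem_univ _, h.2⟩,
        i, h.1⟩)
    · have h1 := (hw i (Finset.mem_coe.1 hi)).1
      have h2 := (hw j (Finset.mem_coe.1 hj)).1
      rw [e, h2] at h1
      exact (Gate.input.inj h1).symm
  refine ⟨π, ((univ.filter fun p : Fin s × Fin s => C.Wire p.1 p.2 ∧ C.Used o p.2) \
    (((univ.filter fun v => C.Used o v).erase o).image fun u => (u, π u))).image Prod.fst,
    ?_, ?_⟩
  · have h1 : (((univ.filter fun p : Fin s × Fin s => C.Wire p.1 p.2 ∧ C.Used o p.2) \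
      (((univ.filter fun v => C.Used o v).erase o).image fun u => (u, π u))).image
        Prod.fst).card ≤ _ := Finset.card_image_le
    omega
  · intro u v h1 h2
    by_cases hv : v = π u
    · exact Or.inr hv
    · left
      rw [Finset.mem_image]
      refine ⟨(u, v), ?_, rfl⟩
      rw [Finset.mem_sdiff, Finset.mem_filter]
      refine ⟨⟨Finset.mem_univ _, h1, h2⟩, fun h => hv ?_⟩
      rw [Finset.mem_image] at h
      obtain ⟨u', -, e⟩ := h
      have e1 := (Prod.mk.inj e).1
      have e2 := (Prod.mk.inj e).2
      rw [← e2, e1]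

end Pool.Agent.W381.Pw.COUNT
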