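import Pool.Agent.W945.Pw.Stm

set_option autoImplicit false

open Finset

namespace Pool.Agent.W381.Pw.FOUR

open Pool.Agent.W945.Pw

lemma sg_sq (b : Bool) : sg b * sg b = 1 := by
  cases b <;> simp [sg]

lemma sg_ne {a b : Bool} (h : a ≠ b) : sg a * sg b = -1 := by
  cases a <;> cases b <;> simp_all [sg]

lemma sg_not (b : Bool) : sg (!b) = -sg b := by
  cases b <;> simp [sg]

lemma orth {n : ℕ} (x y : Fin n → Bool) :
    ∑ S : Finset (Fin n), chi S x * chi S y = if x = y then (2 : ℝ) ^ n else 0 := by
  have h1 : ∑ S : Finset (Fin n), chi S x * chi S y =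
      ∏ i : Fin n, (1 + sg (x i) * sg (y i)) := by
    rw [Finset.prod_one_add, Finset.powerset_univ]
    refine Finset.sum_congr rfl fun S _ => ?_
    unfold chi
    rw [Finset.prod_mul_distrib]
  rw [h1]
  split_ifs with h
  · subst h
    have : ∀ i ∈ (univ : Finset (Fin n)), 1 + sg (x i) * sg (x i) = (2 : ℝ) := fun i _ => by
      rw [sg_sq]; norm_num
    rw [Finset.prod_congr rfl this, Finset.prod_const, card_univ, Fintype.card_fin]
  · obtain ⟨i, hi⟩ := Function.ne_iff.1 h
    refine Finset.prod_eq_zero (mem_univ i) ?_
    rw [sg_ne hi]; norm_num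

lemma inv {n : ℕ} (f : (Fin n → Bool) → ℝ) (x : Fin n → Bool) :
    f x = ∑ S : Finset (Fin n), hat f S * chi S x := by
  have hN : ((Fintype.card (Fin n → Bool) : ℕ) : ℝ) = 2 ^ n := by
    rw [Fintype.card_fun, Fintype.card_bool, Fintype.card_fin]; push_cast; rfl
  have h2 : (2 : ℝ) ^ n ≠ 0 := by positivity
  unfold hat avg
  rw [hN]
  have e : ∑ S : Finset (Fin n), (∑ y, f y * chi S y) / 2 ^ n * chi S x =
      (∑ y, f y * ∑ S : Finset (Fin n), chi S y * chi S x) / 2 ^ n := by
    rw [Finset.sum_div]
    simp_rw [Finset.mul_sum, Finset.sum_div, Finset.sum_mul]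
    rw [Finset.sum_comm]
    refine Finset.sum_congr rfl fun y _ => Finset.sum_congr rfl fun S _ => ?_
    ring
  rw [e]
  simp_rw [orth, mul_ite, mul_zero]
  rw [Finset.sum_ite_eq' univ x, if_pos (mem_univ x)]
  field_simp

theorem main : FOUR.Stm := by
  intro n f
  refine ⟨inv f, ?_, ?_⟩
  · have e : ∀ S : Finset (Fin n), hat f S ^ 2 =
        (∑ x, f x * (hat f S * chi S x)) / (Fintype.card (Fin n → Bool) : ℝ) := by
      intro S
      have h1 : hat f S = (∑ x, f x * chi S x) / (Fintype.card (Fin n → Bool) : ℝ) := rfl
      have h2 : ∑ x, f x * (hat f S * chi S x) = hat f S * ∑ x, f x * chi S x := by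
        rw [Finset.mul_sum]
        exact Finset.sum_congr rfl fun x _ => by ring
      rw [h2, mul_div_assoc, ← h1, sq]
    rw [Finset.sum_congr rfl fun S _ => e S, ← Finset.sum_div, Finset.sum_comm]
    unfold avg
    congr 1
    refine Finset.sum_congr rfl fun x _ => ?_
    rw [← Finset.mul_sum, ← inv f x]
    exact (sq (f x)).symm
  · intro P hP S hS
    obtain ⟨v, hvS, hvP⟩ := Finset.not_subset.1 hS
    unfold hat avg
    have hinv : Function.Involutive (fun x : Fin n → Bool => Function.update x v (!x v)) := by
      intro x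
      funext i
      by_cases hi : i = v
      · subst hi; simp
      · simp [Function.update_of_ne hi]
    have h0 : ∑ x, f x * chi S x = 0 := by
      have h1 : ∑ x, f x * chi S x = ∑ x : Fin n → Bool,
          f (Function.update x v (!x v)) * chi S (Function.update x v (!x v)) :=
        (Equiv.sum_comp hinv.toPerm (fun x => f x * chi S x)).symm
      have h2 : ∀ x : Fin n → Bool, f (Function.update x v (!x v)) *
          chi S (Function.update x v (!x v)) = -(f x * chi S x) := by
        intro x
        have h3 : f (Function.update x v (!x v)) = f x := by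
          refine hP _ _ fun i hi => ?_
          rw [Function.update_of_ne]
          rintro rfl
          exact hvP hi
        have h4 : chi S (Function.update x v (!x v)) = -chi S x := by
          unfold chi
          rw [← Finset.mul_prod_erase S _ hvS, ← Finset.mul_prod_erase S (fun i => sg (x i)) hvS,
            Function.update_self, sg_not]
          have h5 : ∏ i ∈ S.erase v, sg (Function.update x v (!x v) i) =
              ∏ i ∈ S.erase v, sg (x i) :=
            Finset.prod_congr rfl fun i hi => by
              rw [Function.update_of_ne (Finset.ne_of_mem_erase hi)]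
          rw [h5]; ring
        rw [h3, h4]; ring
      rw [Finset.sum_congr rfl fun x _ => h2 x, Finset.sum_neg_distrib] at h1
      linarith
    rw [h0, zero_div]

end Pool.Agent.W381.Pw.FOUR
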